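import Pool.Agent.Work.MP_27b024_lc.Main

namespace Pool.Agent.Work.MP_27b024_lc

open Pool.Agent.Lib.Cx

theorem lab_clause {u : ℕ} {φ : CNF} {c r : ℕ} (hc : c < φ.length) (hr : r < 10) :
    lab u φ (u + (10 * c + r)) = if r < 3 then 1 else 0 := by
  unfold lab
  rw [if_neg (by omega), if_pos (by omega), show (u + (10 * c + r) - u) % 10 = r by omega]

theorem lab_var {u : ℕ} {φ : CNF} (s : ℕ) : lab u φ (u + (10 * φ.length + s)) = 2 := by
  unfold lab
  rw [if_neg (by omega), if_neg (by omega)]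

theorem vr_var {u : ℕ} {φ : CNF} (s : ℕ) : vr u φ (u + (10 * φ.length + s)) = s / 5 := by
  unfold vr
  rw [if_neg (by omega), show u + (10 * φ.length + s) - u - 10 * φ.length = s by omega]

theorem sr_var {u : ℕ} {φ : CNF} (s : ℕ) : sr u φ (u + (10 * φ.length + s)) = 2 + s % 5 := by
  unfold sr
  rw [if_neg (by omega), show u + (10 * φ.length + s) - u - 10 * φ.length = s by omega]

theorem lab_one {u : ℕ} {φ : CNF} {i : ℕ} (h : lab u φ i = 1) :
    vr u φ i = (litOf u φ i).1 ∧ sr u φ i = if (litOf u φ i).2 = true then 0 else 1 := by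
  have : i - u < 10 * φ.length := by
    unfold lab at h; split_ifs at h <;> omega
  unfold vr sr
  rw [if_pos this, if_pos this]
  exact ⟨rfl, rfl⟩

theorem litOf_clause {u : ℕ} {φ : CNF} {c r : ℕ} (hc : c < φ.length) (hr : r < 10)
    (hr' : r < φ[c].length) : litOf u φ (u + (10 * c + r)) = φ[c][r] := by
  unfold litOf
  rw [show (u + (10 * c + r) - u) / 10 = c by omega, show (u + (10 * c + r) - u) % 10 = r by omega,
    List.getD_eq_getElem _ _ hc, List.getD_eq_getElem _ _ hr']

theorem sat_of_col {u nv : ℕ} {φ : CNF} (h3 : ∀ c ∈ φ, c.length = 3)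
    (hv : ∀ c ∈ φ, ∀ l ∈ c, l.1 < nv)
    (hC : (gr u φ (u + (10 * φ.length + 5 * nv))).Colorable (u + 7)) :
    ∃ a : ℕ → Bool, ∀ c ∈ φ, ∃ l ∈ c, a l.1 = l.2 := by
  classical
  obtain ⟨C⟩ := hC
  set N := u + (10 * φ.length + 5 * nv) with hN
  let col : ℕ → Fin (u + 7) := fun i => if h : i < N then C ⟨i, h⟩ else 0
  have valid : ∀ i j, i < N → j < N → i ≠ j → HAdj u φ i j → col i ≠ col j := by
    intro i j hi hj hij h
    simp only [col, dif_pos hi, dif_pos hj]
    exact C.valid (show (gr u φ N).Adj ⟨i, hi⟩ ⟨j, hj⟩ from ⟨hij, h⟩)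
  let S : ℕ → Finset (Fin (u + 7)) := fun z =>
    ((Finset.range N).filter fun i => lab u φ i = z).image col
  have memS : ∀ i, i < N → col i ∈ S (lab u φ i) := fun i hi =>
    Finset.mem_image_of_mem _ (Finset.mem_filter.2 ⟨Finset.mem_range.2 hi, rfl⟩)
  have disj : ∀ z z', z ≠ z' → (z = 3 ∨ z' = 3 ∨ (z = 0 ∧ z' = 2) ∨ (z = 2 ∧ z' = 0)) →
      Disjoint (S z) (S z') := by
    intro z z' hz h
    rw [Finset.disjoint_left]
    intro x hx hx'
    obtain ⟨i, hi, rfl⟩ := Finset.mem_image.1 hx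
    obtain ⟨j, hj, e⟩ := Finset.mem_image.1 hx'
    rw [Finset.mem_filter, Finset.mem_range] at hi hj
    refine valid i j hi.1 hj.1 (fun h' => hz (by rw [← hi.2, ← hj.2, h'])) ?_ e.symm
    unfold HAdj
    rw [hi.2, hj.2]
    tauto
  have cardS : ∀ (z n : ℕ) (y : Fin n → ℕ), (∀ s, y s < N ∧ lab u φ (y s) = z) →
      (∀ s s', s ≠ s' → y s ≠ y s' ∧ HAdj u φ (y s) (y s')) → n ≤ (S z).card := by
    intro z n y h1 h2
    have := Finset.card_le_card_of_injOn (s := Finset.univ) (t := S z) (fun s => col (y s))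
      (fun s _ => by rw [← (h1 s).2]; exact memS _ (h1 s).1)
      (fun s _ s' _ e => by
        by_contra h
        exact valid _ _ (h1 s).1 (h1 s').1 (h2 s s' h).1 (h2 s s' h).2 e)
    simpa using this
  refine ⟨fun v => decide (∃ i < N, lab u φ i = 1 ∧ litOf u φ i = (v, true) ∧ col i ∈ S 2),
    fun c hc => ?_⟩
  obtain ⟨c, hc', rfl⟩ := List.getElem_of_mem hc
  have hl := h3 _ hc
  have c3 : u ≤ (S 3).card := cardS 3 u (fun s => s)
    (fun s => ⟨by have := s.2; omega, by unfold lab; rw [if_pos s.2]⟩)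
    fun s s' h => ⟨fun e => h (Fin.ext e), Or.inl (by unfold lab; rw [if_pos s.2])⟩
  have hnv : 0 < nv := lt_of_le_of_lt (Nat.zero_le _)
    (hv _ hc _ (List.getElem_mem (show 0 < φ[c].length by omega)))
  have c2 : 3 ≤ (S 2).card := cardS 2 3 (fun s => u + (10 * φ.length + 2 * s))
    (fun s => ⟨by have := s.2; omega, lab_var _⟩) fun s s' h => by
      have h' : s.val ≠ s'.val := fun e => h (Fin.ext e)
      refine ⟨by omega, ?_⟩
      rw [adj_var (by rw [lab_var]; omega) (by rw [lab_var]) (by rw [lab_var]; omega)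
        (by rw [lab_var]), vr_var, vr_var, sr_var, sr_var]
      revert s s'
      decide
  have c0 : 4 ≤ (S 0).card := cardS 0 4 (fun s => u + (10 * c + ([3, 5, 6, 9] : List ℕ).getD s 0))
    (fun s => by
      have : 3 ≤ ([3, 5, 6, 9] : List ℕ).getD s 0 ∧ ([3, 5, 6, 9] : List ℕ).getD s 0 < 10 := by
        revert s; decide
      exact ⟨by omega, by rw [lab_clause hc' this.2, if_neg (by omega)]⟩) fun s s' h => by
      have : ([3, 5, 6, 9] : List ℕ).getD s 0 < 10 ∧ ([3, 5, 6, 9] : List ℕ).getD s' 0 < 10 ∧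
          ([3, 5, 6, 9] : List ℕ).getD s 0 ≠ ([3, 5, 6, 9] : List ℕ).getD s' 0 ∧
          hA (([3, 5, 6, 9] : List ℕ).getD s 0) (([3, 5, 6, 9] : List ℕ).getD s' 0) = true := by
        revert s s'; decide
      generalize ([3, 5, 6, 9] : List ℕ).getD s 0 = p at this ⊢
      generalize ([3, 5, 6, 9] : List ℕ).getD s' 0 = q at this ⊢
      refine ⟨by omega, ?_⟩
      rw [adj_clause (by rw [lab_clause hc' this.1]; split_ifs <;> omega)
        (by rw [lab_clause hc' this.2.1]; split_ifs <;> omega),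
        show (u + (10 * c + p) - u) % 10 = p by omega, show (u + (10 * c + q) - u) % 10 = q by omega]
      exact ⟨by omega, this.2.2.2⟩
  have hU : (S 3 ∪ (S 2 ∪ S 0)).card = (S 3).card + ((S 2).card + (S 0).card) := by
    rw [Finset.card_union_of_disjoint (Finset.disjoint_union_right.2
      ⟨disj _ _ (by omega) (by omega), disj _ _ (by omega) (by omega)⟩),
      Finset.card_union_of_disjoint (disj _ _ (by omega) (by omega))]
  have hle : (S 3 ∪ (S 2 ∪ S 0)).card ≤ u + 7 := by
    simpa using Finset.card_le_univ (S 3 ∪ (S 2 ∪ S 0))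
  have huniv : S 3 ∪ (S 2 ∪ S 0) = Finset.univ :=
    Finset.eq_univ_of_card _ (by rw [Fintype.card_fin]; omega)
  have hterm : ∃ r < 3, col (u + (10 * c + r)) ∈ S 2 := by
    by_contra hcon
    push Not at hcon
    obtain ⟨g, hg⟩ := exists_fin_of_card_le (n := 4) (S 0) (by omega)
      (fun r : Fin 10 => col (u + (10 * c + r))) fun r => by
        have hr := r.2
        have hlt : u + (10 * c + r) < N := by omega
        by_cases h : r.val < 3
        · have h1 : col (u + (10 * c + r)) ∈ S 3 ∪ (S 2 ∪ S 0) := huniv ▸ Finset.mem_univ _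
          have h2 := memS _ hlt
          rw [lab_clause hc' hr, if_pos h] at h2
          rcases Finset.mem_union.1 h1 with h1 | h1
          · exact absurd h2 (Finset.disjoint_left.1 (disj 3 1 (by omega) (by omega)) h1)
          · rcases Finset.mem_union.1 h1 with h1 | h1
            · exact absurd h1 (hcon _ h)
            · exact h1
        · have h2 := memS _ hlt
          rwa [lab_clause hc' hr, if_neg h] at h2
    refine hA_not4 g fun p q h e => ?_
    have hp := p.2
    have hq := q.2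
    have hpq : p.val ≠ q.val := fun e' => by
      rw [Fin.ext e', hA_irr] at h; exact absurd h (by simp)
    refine valid _ _ (by omega) (by omega) (by omega) ?_ (hg _ _ e)
    rw [adj_clause (by rw [lab_clause hc' hp]; split_ifs <;> omega)
      (by rw [lab_clause hc' hq]; split_ifs <;> omega),
      show (u + (10 * c + p) - u) % 10 = p by omega, show (u + (10 * c + q) - u) % 10 = q by omega]
    exact ⟨by omega, h⟩
  obtain ⟨r, hr, hcol⟩ := hterm
  have hlit := litOf_clause (u := u) hc' (show r < 10 by omega) (show r < φ[c].length by omega)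
  have hlab : lab u φ (u + (10 * c + r)) = 1 := by rw [lab_clause hc' (by omega), if_pos hr]
  have hmem : φ[c][r] ∈ φ[c] := List.getElem_mem _
  refine ⟨φ[c][r], hmem, ?_⟩
  have hvlt := hv _ hc _ hmem
  generalize φ[c][r] = l at hlit hvlt
  obtain ⟨v, sg⟩ := l
  cases sg
  · simp only [decide_eq_false_iff_not]
    rintro ⟨i, hi, hi1, hi2, hi3⟩
    simp only at hvlt
    let y : Fin 7 → ℕ := fun s => if s.val = 0 then i else if s.val = 1 then u + (10 * c + r)
      else u + (10 * φ.length + (5 * v + (s - 2)))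
    have hy : ∀ s : Fin 7, y s < N ∧ 1 ≤ lab u φ (y s) ∧ lab u φ (y s) ≤ 2 ∧ vr u φ (y s) = v ∧
        sr u φ (y s) = s ∧ col (y s) ∈ S 2 := fun s => by
      have hs := s.2
      simp only [y]
      split_ifs with h0 h1
      · have := lab_one hi1
        rw [hi2] at this
        exact ⟨hi, by omega, by omega, this.1, by rw [this.2, h0]; rfl, hi3⟩
      · have := lab_one hlab
        rw [hlit] at this
        exact ⟨by omega, by omega, by omega, this.1, by rw [this.2, h1]; rfl, hcol⟩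
      · have hlt : u + (10 * φ.length + (5 * v + (s - 2))) < N := by omega
        have h2 := memS _ hlt
        rw [lab_var] at h2
        rw [lab_var, vr_var, sr_var]
        exact ⟨hlt, by omega, by omega, by omega, by omega, h2⟩
    obtain ⟨g, hg⟩ := exists_fin_of_card_le (n := 3) (S 2) (by omega) (fun s => col (y s))
      fun s => (hy s).2.2.2.2.2
    refine aA_not3 g fun p q h e => ?_
    have hp := hy p
    have hq := hy q
    have hpq : y p ≠ y q := fun e' => by
      have : p.val = q.val := by rw [← hp.2.2.2.2.1, ← hq.2.2.2.2.1, e']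
      unfold aA at h
      simp only [decide_eq_true_eq] at h
      exact h.1 this
    refine valid _ _ hp.1 hq.1 hpq ?_ (hg _ _ e)
    rw [adj_var hp.2.1 hp.2.2.1 hq.2.1 hq.2.2.1, hp.2.2.2.1, hq.2.2.2.1, hp.2.2.2.2.1,
      hq.2.2.2.2.1]
    exact ⟨rfl, h⟩
  · simp only [decide_eq_true_eq]
    exact ⟨_, by omega, hlab, hlit, hcol⟩

theorem col_of_sat {u : ℕ} {φ : CNF} (h3 : ∀ c ∈ φ, c.length = 3) (N : ℕ) (a : ℕ → Bool)
    (ha : ∀ c ∈ φ, ∃ l ∈ c, a l.1 = l.2) : (gr u φ N).Colorable (u + 7) := by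
  classical
  have hch : ∀ c : ℕ, ∃ t < 3, c < φ.length →
      a ((φ.getD c []).getD t (0, false)).1 = ((φ.getD c []).getD t (0, false)).2 := fun c => by
    by_cases hc : c < φ.length
    · obtain ⟨l, hl, e⟩ := ha _ (List.getElem_mem hc)
      obtain ⟨t, ht, rfl⟩ := List.getElem_of_mem hl
      refine ⟨t, h3 _ (List.getElem_mem hc) ▸ ht, fun _ => ?_⟩
      rw [List.getD_eq_getElem _ _ hc, List.getD_eq_getElem _ _ ht]; exact e
    · exact ⟨0, by omega, fun h => absurd h hc⟩
  choose t ht hta using hch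
  let inP : ℕ → Prop := fun i => lab u φ i = 2 ∨ (lab u φ i = 1 ∧ (i - u) % 10 = t ((i - u) / 10))
  let col : ℕ → ℕ := fun i => if i < u then 7 + i else
    if inP i then aCol (a (vr u φ i)) (sr u φ i) else hCol (t ((i - u) / 10)) ((i - u) % 10)
  have m10 : ∀ x : ℕ, x % 10 < 10 := fun x => Nat.mod_lt _ (by norm_num)
  have l3 : ∀ i, lab u φ i = 3 ↔ i < u := fun i => by
    unfold lab; split_ifs <;> simp_all
  have hP : ∀ i, ¬i < u → inP i → col i = aCol (a (vr u φ i)) (sr u φ i) ∧ col i < 3 ∧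
      1 ≤ lab u φ i ∧ lab u φ i ≤ 2 ∧ sr u φ i ≠ (if a (vr u φ i) then 1 else 0) := by
    intro i hi h
    have e : col i = aCol (a (vr u φ i)) (sr u φ i) := by simp only [col, if_neg hi, if_pos h]
    refine ⟨e, e ▸ aCol_lt _ ⟨_, sr_lt u φ i⟩, by rcases h with h | h <;> omega,
      by rcases h with h | h <;> omega, ?_⟩
    rcases h with h | h
    · have : 2 ≤ sr u φ i := by
        unfold lab at h; unfold sr; split_ifs at h ⊢ <;> omega
      split_ifs <;> omega
    · have h1 := lab_one h.1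
      have h2 : (i - u) / 10 < φ.length := by
        have := h.1
        unfold lab at this; split_ifs at this <;> omega
      have h4 := hta _ h2
      rw [← h.2] at h4
      change a (litOf u φ i).1 = (litOf u φ i).2 at h4
      rw [h1.1, h1.2, h4]
      split_ifs <;> omega
  have hQ : ∀ i, ¬i < u → ¬inP i → col i = hCol (t ((i - u) / 10)) ((i - u) % 10) ∧ 3 ≤ col i ∧
      col i < 7 ∧ lab u φ i ≤ 1 ∧ (i - u) % 10 ≠ t ((i - u) / 10) := by
    intro i hi h
    have e : col i = hCol (t ((i - u) / 10)) ((i - u) % 10) := by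
      simp only [col, if_neg hi, if_neg h]
    have hr := hCol_range ⟨_, ht ((i - u) / 10)⟩ ⟨_, m10 (i - u)⟩
    have h1 := lab_le u φ i
    have h2 := l3 i
    simp only [inP, not_or, not_and] at h
    refine ⟨e, e ▸ hr.1, e ▸ hr.2, by omega, fun e' => ?_⟩
    refine h.2 ?_ e'
    have := ht ((i - u) / 10)
    have h5 := h.1
    unfold lab at h5 ⊢
    split_ifs at h5 ⊢ <;> omega
  have hlt : ∀ i, ¬i < u → col i < 7 := fun i hi => by
    by_cases h : inP i
    · have := hP i hi h; omega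
    · have := hQ i hi h; omega
  have hX : ∀ i, i < u → col i = 7 + i := fun i hi => by simp only [col, if_pos hi]
  refine (SimpleGraph.colorable_iff_exists_bdd_nat_coloring _).2
    ⟨SimpleGraph.Coloring.mk (fun i => col i) fun {i j} h => ?_, fun i => ?_⟩
  · obtain ⟨hne, h⟩ := h
    change col i ≠ col j
    by_cases hi : i.val < u <;> by_cases hj : j.val < u
    · rw [hX _ hi, hX _ hj]; omega
    · have := hlt _ hj; rw [hX _ hi]; omega
    · have := hlt _ hi; rw [hX _ hj]; omega
    · by_cases pi : inP i <;> by_cases pj : inP j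
      · have h1 := hP _ hi pi
        have h2 := hP _ hj pj
        rw [adj_var h1.2.2.1 h1.2.2.2.1 h2.2.2.1 h2.2.2.2.1] at h
        rw [h1.1, h2.1, ← h.1]
        exact aCol_ok _ ⟨_, sr_lt u φ i⟩ ⟨_, sr_lt u φ j⟩ h1.2.2.2.2 (h.1 ▸ h2.2.2.2.2) h.2
      · have h1 := hP _ hi pi
        have h2 := hQ _ hj pj
        omega
      · have h1 := hQ _ hi pi
        have h2 := hP _ hj pj
        omega
      · have h1 := hQ _ hi pi
        have h2 := hQ _ hj pj
        rw [adj_clause h1.2.2.2.1 h2.2.2.2.1] at h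
        rw [h1.1, h2.1, ← h.1]
        exact hCol_ok ⟨_, ht _⟩ ⟨_, m10 _⟩ ⟨_, m10 _⟩ h1.2.2.2.2 (h.1 ▸ h2.2.2.2.2) h.2
  · change col i < u + 7
    by_cases hi : i.val < u
    · rw [hX _ hi]; omega
    · have := hlt _ hi; omega

/-- A bound on the variables. -/
def nvar (φ : CNF) : ℕ := (φ.map fun c => (c.map fun l => l.1 + 1).sum).sum

theorem lt_nvar {φ : CNF} {c : List (ℕ × Bool)} (hc : c ∈ φ) {l : ℕ × Bool} (hl : l ∈ c) :
    l.1 < nvar φ := by
  have h1 := List.le_sum_of_mem (List.mem_map_of_mem (f := fun l : ℕ × Bool => l.1 + 1) hl)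
  have h2 := List.le_sum_of_mem
    (List.mem_map_of_mem (f := fun c : List (ℕ × Bool) => (c.map fun l => l.1 + 1).sum) hc)
  unfold nvar; omega

/-- The reduction on formulas. -/
def red (u : ℕ) (φ : CNF) : List Bool :=
  code (u + (10 * φ.length + 5 * nvar φ)) (fun i j => decide (i ≠ j ∧ HAdj u φ i j))

theorem ls_red (u : ℕ) : LS (red u) := by
  unfold red code nvar HAdj lab vr sr litOf hA aA
  fun_prop

theorem hard (k : ℕ) (hk : 7 ≤ k) (L : N68a2faeb.DecisionProblem) (hL : L ∈ N68a2faeb.NP) :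
    ∃ f : List Bool → List Bool, N68a2faeb.IsPolyTime f ∧ ∀ x,
      ∃ (n : ℕ) (G : SimpleGraph (Fin n)), f x = encode G ∧ LongHoleFree G ∧ P6Free G ∧
        (L x = true ↔ G.Colorable k) := by
  obtain ⟨u, rfl⟩ : ∃ u, k = u + 7 := ⟨k - 7, by omega⟩
  obtain ⟨φ, hφ, h3, h⟩ := cook_levin_ls L hL
  refine ⟨fun x => red u (φ x), (LS.comp _ _ (ls_red u) hφ).isPolyTime, fun x =>
    ⟨_, gr u (φ x) (u + (10 * (φ x).length + 5 * nvar (φ x))),
      (encode_eq _ _ fun i j => by simp [gr]).symm, gr_hole _ _ _, gr_P6 _ _ _, ?_⟩⟩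
  rw [h]
  exact ⟨fun ⟨a, ha⟩ => col_of_sat (h3 x) _ a ha,
    fun hC => sat_of_col (h3 x) (fun c hc l hl => lt_nvar hc hl) hC⟩

end Pool.Agent.Work.MP_27b024_lc
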