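import Mathlib
import Pool.Prelude.Def_H_3587d628

namespace Pool.Agent.Work.MP_27b024_lc

open Classical in
/-- The code of a graph: the number `n` of vertices in unary, a zero, and the adjacency matrix
row by row. -/
noncomputable def encode {n : ℕ} (G : SimpleGraph (Fin n)) : List Bool :=
  List.replicate n true ++ false ::
    ((List.finRange n).flatMap fun i => (List.finRange n).map fun j => decide (G.Adj i j))

open Classical in
/-- `k`-COLOURING as a language: the codes of properly `k`-colourable graphs. -/
noncomputable def kColouring (k : ℕ) : N68a2faeb.DecisionProblem := fun x =>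
  decide (∃ (n : ℕ) (G : SimpleGraph (Fin n)), x = encode G ∧ G.Colorable k)

/-- No induced cycle of length at least 5. -/
def LongHoleFree {V : Type} (G : SimpleGraph V) : Prop :=
  ∀ m : ℕ, 5 ≤ m → IsEmpty (SimpleGraph.cycleGraph m ↪g G)

/-- No induced path on 6 vertices. -/
def P6Free {V : Type} (G : SimpleGraph V) : Prop :=
  IsEmpty (SimpleGraph.pathGraph 6 ↪g G)

end Pool.Agent.Work.MP_27b024_lc
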