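import Mathlib

set_option synthInstance.maxSize 100000

namespace Pool.Agent.Work.MP_27b024_lc

/-- Adjacency in the clause gadget (10 vertices; 0, 1, 2 are the terminals). -/
def hA (a b : ℕ) : Bool :=
  (([824, 696, 1008, 995, 455, 719, 572, 318, 669, 367] : List ℕ).getD a 0).testBit b

/-- Adjacency in the complement of the 7-cycle. -/
def aA (a b : ℕ) : Bool := decide (a ≠ b ∧ (a + 1) % 7 ≠ b ∧ (b + 1) % 7 ≠ a)

theorem hA_symm_fin : ∀ a b : Fin 10, hA a b = hA b a := by decide +kernel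

theorem hA_symm {a b : ℕ} (ha : a < 10) (hb : b < 10) : hA a b = hA b a :=
  hA_symm_fin ⟨a, ha⟩ ⟨b, hb⟩

theorem aA_symm (a b : ℕ) : aA a b = aA b a := by
  unfold aA
  congr 1
  apply propext
  constructor <;> intro h <;> omega

theorem hA_term : ∀ a b : Fin 3, hA a b = false := by decide +kernel

theorem hA_irr : ∀ a : Fin 10, hA a a = false := by decide +kernel

theorem hA_five : ∀ a b : Fin 10, hA a b = true → ∀ c : Fin 10, hA b c = true → hA a c = false →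
    ∀ d : Fin 10, hA c d = true → hA a d = false → hA b d = false →
    ∀ e : Fin 10, hA d e = true → hA b e = false → hA c e = false → False := by
  decide +kernel

theorem aA_five : ∀ a b : Fin 7, aA a b = true → ∀ c : Fin 7, aA b c = true → aA a c = false →
    ∀ d : Fin 7, aA c d = true → aA a d = false → aA b d = false →
    ∀ e : Fin 7, aA d e = true → aA b e = false → aA c e = false → False := by
  decide +kernel

theorem hA_not4' : ∀ c3 c5 : Fin 4, c3 ≠ c5 → ∀ c6 : Fin 4, c3 ≠ c6 → c5 ≠ c6 →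
    ∀ c9 : Fin 4, c3 ≠ c9 → c5 ≠ c9 → c6 ≠ c9 → ∀ c0 : Fin 4, c0 ≠ c3 → c0 ≠ c5 → c0 ≠ c9 →
    ∀ c1 : Fin 4, c1 ≠ c3 → c1 ≠ c5 → c1 ≠ c9 → ∀ c2 : Fin 4, c2 ≠ c5 → c2 ≠ c6 → c2 ≠ c9 →
    ∀ c4 : Fin 4, c0 ≠ c4 → c1 ≠ c4 → c2 ≠ c4 → c4 ≠ c6 →
    ∀ c7 : Fin 4, c1 ≠ c7 → c2 ≠ c7 → c3 ≠ c7 → c4 ≠ c7 → c5 ≠ c7 →
    ∀ c8 : Fin 4, c0 ≠ c8 → c2 ≠ c8 → c3 ≠ c8 → c4 ≠ c8 → c7 ≠ c8 → c8 ≠ c9 → False := by
  decide +kernel

theorem hA_not4 (g : Fin 10 → Fin 4) (h : ∀ a b : Fin 10, hA a b = true → g a ≠ g b) : False :=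
  hA_not4' (g 3) (g 5) (h _ _ (by decide)) (g 6) (h _ _ (by decide)) (h _ _ (by decide))
    (g 9) (h _ _ (by decide)) (h _ _ (by decide)) (h _ _ (by decide))
    (g 0) (h _ _ (by decide)) (h _ _ (by decide)) (h _ _ (by decide))
    (g 1) (h _ _ (by decide)) (h _ _ (by decide)) (h _ _ (by decide))
    (g 2) (h _ _ (by decide)) (h _ _ (by decide)) (h _ _ (by decide))
    (g 4) (h _ _ (by decide)) (h _ _ (by decide)) (h _ _ (by decide)) (h _ _ (by decide))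
    (g 7) (h _ _ (by decide)) (h _ _ (by decide)) (h _ _ (by decide)) (h _ _ (by decide))
    (h _ _ (by decide))
    (g 8) (h _ _ (by decide)) (h _ _ (by decide)) (h _ _ (by decide)) (h _ _ (by decide))
    (h _ _ (by decide)) (h _ _ (by decide))

theorem aA_not3' : ∀ c0 c2 : Fin 3, c0 ≠ c2 → ∀ c4 : Fin 3, c0 ≠ c4 → c2 ≠ c4 →
    ∀ c5 : Fin 3, c0 ≠ c5 → c2 ≠ c5 → ∀ c6 : Fin 3, c2 ≠ c6 → c4 ≠ c6 →
    ∀ c1 : Fin 3, c1 ≠ c4 → c1 ≠ c5 → c1 ≠ c6 →
    ∀ c3 : Fin 3, c0 ≠ c3 → c1 ≠ c3 → c3 ≠ c5 → c3 ≠ c6 → False := by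
  decide +kernel

theorem aA_not3 (g : Fin 7 → Fin 3) (h : ∀ a b : Fin 7, aA a b = true → g a ≠ g b) : False :=
  aA_not3' (g 0) (g 2) (h _ _ (by decide)) (g 4) (h _ _ (by decide)) (h _ _ (by decide))
    (g 5) (h _ _ (by decide)) (h _ _ (by decide)) (g 6) (h _ _ (by decide)) (h _ _ (by decide))
    (g 1) (h _ _ (by decide)) (h _ _ (by decide)) (h _ _ (by decide))
    (g 3) (h _ _ (by decide)) (h _ _ (by decide)) (h _ _ (by decide)) (h _ _ (by decide))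

/-- A map into a set with at most `n` elements factors through `Fin n`. -/
theorem exists_fin_of_card_le {α β : Type} [DecidableEq α] {n : ℕ} (S : Finset α)
    (hS : S.card ≤ n) (f : β → α) (hf : ∀ b, f b ∈ S) :
    ∃ g : β → Fin n, ∀ a b, g a = g b → f a = f b := by
  refine ⟨fun b => Fin.castLE hS (S.equivFin ⟨f b, hf b⟩), fun a b h => ?_⟩
  have := S.equivFin.injective (Fin.castLE_injective hS h)
  exact congrArg Subtype.val this

/-- Four-colourings of the clause gadget minus terminal `t` (colours 3 to 6). -/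
def hCol (t r : ℕ) : ℕ :=
  3 + (([[0, 0, 1, 1, 2, 2, 0, 3, 0, 3], [0, 0, 1, 1, 2, 3, 0, 0, 3, 2],
    [0, 0, 0, 1, 1, 2, 0, 3, 2, 3]] : List (List ℕ)).getD t []).getD r 0

theorem hCol_ok : ∀ t : Fin 3, ∀ a b : Fin 10, a.val ≠ t.val → b.val ≠ t.val → hA a b = true →
    hCol t a ≠ hCol t b := by decide +kernel

theorem hCol_range : ∀ t : Fin 3, ∀ a : Fin 10, 3 ≤ hCol t a ∧ hCol t a < 7 := by decide +kernel

/-- Three-colourings of the complement of the 7-cycle minus vertex 1 (for `true`) or minus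
vertex 0 (for `false`). -/
def aCol (x : Bool) (s : ℕ) : ℕ :=
  (if x then ([2, 0, 0, 0, 1, 1, 2] : List ℕ) else [0, 0, 0, 1, 1, 2, 2]).getD s 0

theorem aCol_ok : ∀ x : Bool, ∀ a b : Fin 7, a.val ≠ (if x then 1 else 0) →
    b.val ≠ (if x then 1 else 0) → aA a b = true → aCol x a ≠ aCol x b := by decide +kernel

theorem aCol_lt : ∀ x : Bool, ∀ a : Fin 7, aCol x a < 3 := by decide +kernel

end Pool.Agent.Work.MP_27b024_lc
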