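import Pool.Agent.Work.MP_27b024_lc.Defs
import Pool.Agent.Work.MP_27b024_lc.Gadget
import Pool.Agent.Lib.Cx.Bridge
import Pool.Agent.Lib.Cx.Bits
import Pool.Agent.Lib.Cx.CookLevin

namespace Pool.Agent.Work.MP_27b024_lc

open Pool.Agent.Lib.Cx

/-- The code with a numerical adjacency function. -/
def code (n : ℕ) (adj : ℕ → ℕ → Bool) : List Bool :=
  List.replicate n true ++ false ::
    ((List.range n).flatMap fun i => (List.range n).map fun j => adj i j)

theorem encode_eq {n : ℕ} (G : SimpleGraph (Fin n)) (adj : ℕ → ℕ → Bool)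
    (h : ∀ i j : Fin n, adj i j = true ↔ G.Adj i j) : encode G = code n adj := by
  classical
  unfold encode code
  rw [← finRange_flatMap]
  congr 2
  refine List.flatMap_congr fun i _ => ?_
  rw [← finRange_map]
  refine List.map_congr_left fun j _ => ?_
  by_cases h' : G.Adj i j
  · simp [h', (h i j).2 h']
  · simpa [h'] using fun h'' => h' ((h i j).1 h'')

/-! ### Membership in NP -/

/-- Number of vertices read from a code. -/
def nOf (x : List Bool) : ℕ := x.findIdx (· == false)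
/-- Adjacency read from a code. -/
def adjOf (x : List Bool) (i j : ℕ) : Bool := x.getD (nOf x + 1 + (i * nOf x + j)) false
/-- The colour of a vertex read from a witness. -/
def colOf (n : ℕ) (w : List Bool) (i : ℕ) : ℕ := findLt n fun c => w.getD (i * n + c) false

/-- The verifier. -/
def verify (k : ℕ) (p : List Bool × List Bool) : Bool :=
  decide (p.1 = code (nOf p.1) (adjOf p.1) ∧
    (∀ i < nOf p.1, adjOf p.1 i i = false ∧ colOf (nOf p.1) p.2 i < k ∧
      ∀ j < nOf p.1, adjOf p.1 i j = adjOf p.1 j i ∧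
        (adjOf p.1 i j = true → colOf (nOf p.1) p.2 i ≠ colOf (nOf p.1) p.2 j)))

theorem ls_verify (k : ℕ) : LS (verify k) := by
  unfold verify code colOf adjOf nOf
  fun_prop

theorem nOf_code (n : ℕ) (adj : ℕ → ℕ → Bool) : nOf (code n adj) = n := by
  unfold nOf code
  have key : ∀ (m : ℕ) (l : List Bool),
      (List.replicate m true ++ false :: l).findIdx (· == false) = m := by
    intro m l
    induction m with
    | zero => simp [List.findIdx_cons]
    | succ m ih => simp only [List.replicate_succ, List.cons_append, List.findIdx_cons, ih]; simp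
  exact key _ _

theorem adjOf_code {n : ℕ} (adj : ℕ → ℕ → Bool) {i j : ℕ} (hi : i < n)
    (hj : j < n) : adjOf (code n adj) i j = adj i j := by
  unfold adjOf
  rw [nOf_code, code, getD_append', if_neg (by simp; omega)]
  have : n + 1 + (i * n + j) - (List.replicate n true).length = (i * n + j) + 1 := by
    simp; omega
  rw [this, List.getD_cons_succ, getD_matrix _ _ _ _ hi hj]

theorem code_congr {n : ℕ} {adj adj' : ℕ → ℕ → Bool}
    (h : ∀ i < n, ∀ j < n, adj i j = adj' i j) : code n adj = code n adj' := by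
  unfold code
  congr 2
  exact List.flatMap_congr fun i hi => List.map_congr_left fun j hj =>
    h i (List.mem_range.1 hi) j (List.mem_range.1 hj)

theorem kColouring_mem_NP (k : ℕ) : kColouring k ∈ N68a2faeb.NP := by
  classical
  refine mem_NP_of_ls (Polynomial.X * Polynomial.X) (verify k) (ls_verify k) fun x => ?_
  simp only [kColouring, decide_eq_true_eq, verify]
  constructor
  · rintro ⟨n, G, rfl, hG⟩
    let adj : ℕ → ℕ → Bool := fun i j =>
      decide (∃ (hi : i < n) (hj : j < n), G.Adj ⟨i, hi⟩ ⟨j, hj⟩)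
    have hadj : ∀ i j : Fin n, adj i j = true ↔ G.Adj i j := fun i j => by simp [adj]
    have hcol : G.Colorable (min n k) := by
      rcases le_total n k with h | h
      · rw [min_eq_left h]; simpa using G.colorable_of_fintype
      · rwa [min_eq_right h]
    obtain ⟨C, hC⟩ := (G.colorable_iff_exists_bdd_nat_coloring _).1 hcol
    let col : ℕ → ℕ := fun i => if h : i < n then C ⟨i, h⟩ else 0
    let w := (List.range n).flatMap fun i => (List.range n).map fun c => decide (c = col i)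
    have hw : ∀ i (hi : i < n), colOf n w i = C ⟨i, hi⟩ := fun i hi => by
      have h1 : C ⟨i, hi⟩ < n := (hC _).trans_le (min_le_left _ _)
      refine findLt_eq h1.le (fun _ => ?_) fun c hc => ?_
      · rw [getD_matrix _ _ _ _ hi h1]; simp [col, hi]
      · rw [getD_matrix _ _ _ _ hi (hc.trans h1)]; simp [col, hi]; omega
    rw [encode_eq G adj hadj]
    refine ⟨w, ?_, ?_⟩
    · have : n ≤ (code n adj).length := by simp [code]
      simp only [w, length_matrix, Polynomial.eval_mul, Polynomial.eval_X]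
      exact Nat.mul_le_mul this this
    · simp only [nOf_code]
      refine ⟨code_congr fun i hi j hj => (adjOf_code _ hi hj).symm,
        fun i hi => ⟨?_, ?_, fun j hj => ⟨?_, ?_⟩⟩⟩
      · rw [adjOf_code _ hi hi]; simp [adj]
      · rw [hw i hi]; exact (hC _).trans_le (min_le_right _ _)
      · rw [adjOf_code _ hi hj, adjOf_code _ hj hi]; simp [adj, hi, hj, G.adj_comm]
      · rw [adjOf_code _ hi hj, hw i hi, hw j hj]
        exact fun h => C.valid ((hadj ⟨i, hi⟩ ⟨j, hj⟩).1 h)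
  · rintro ⟨w, -, h1, h3⟩
    let G : SimpleGraph (Fin (nOf x)) :=
      { Adj := fun i j => adjOf x i j = true
        symm := ⟨fun i j h => by rwa [← ((h3 i i.2).2.2 j j.2).1]⟩
        loopless := ⟨fun i h => by simp [(h3 i i.2).1] at h⟩ }
    refine ⟨nOf x, G, ?_, ?_⟩
    · rw [encode_eq G (adjOf x) fun _ _ => Iff.rfl]
      exact h1
    · exact (G.colorable_iff_exists_bdd_nat_coloring _).2
        ⟨SimpleGraph.Coloring.mk (fun i => colOf (nOf x) w i) fun {i j} h =>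
          ((h3 i i.2).2.2 j j.2).2 h, fun i => (h3 i i.2).2.1⟩

/-! ### The reduction -/

/-- CNF formulas. -/
abbrev CNF := List (List (ℕ × Bool))

/-- Kind of a vertex: 3 universal, 0 inner clause vertex, 1 literal occurrence, 2 inner variable
vertex. -/
def lab (u : ℕ) (φ : CNF) (i : ℕ) : ℕ :=
  if i < u then 3 else if i - u < 10 * φ.length then (if (i - u) % 10 < 3 then 1 else 0) else 2

/-- The literal of an occurrence vertex. -/
def litOf (u : ℕ) (φ : CNF) (i : ℕ) : ℕ × Bool :=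
  (φ.getD ((i - u) / 10) []).getD ((i - u) % 10) (0, false)

/-- The variable gadget of a vertex. -/
def vr (u : ℕ) (φ : CNF) (i : ℕ) : ℕ :=
  if i - u < 10 * φ.length then (litOf u φ i).1 else (i - u - 10 * φ.length) / 5

/-- The role of a vertex in its variable gadget. -/
def sr (u : ℕ) (φ : CNF) (i : ℕ) : ℕ :=
  if i - u < 10 * φ.length then (if (litOf u φ i).2 = true then 0 else 1)
  else 2 + (i - u - 10 * φ.length) % 5

/-- Adjacency (for distinct vertices). -/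
def HAdj (u : ℕ) (φ : CNF) (i j : ℕ) : Prop :=
  lab u φ i = 3 ∨ lab u φ j = 3 ∨ (lab u φ i = 0 ∧ lab u φ j = 2) ∨
    (lab u φ i = 2 ∧ lab u φ j = 0) ∨
    (lab u φ i ≤ 1 ∧ lab u φ j ≤ 1 ∧ (i - u) / 10 = (j - u) / 10 ∧
      hA ((i - u) % 10) ((j - u) % 10) = true) ∨
    (1 ≤ lab u φ i ∧ 1 ≤ lab u φ j ∧ vr u φ i = vr u φ j ∧ aA (sr u φ i) (sr u φ j) = true)

instance (u : ℕ) (φ : CNF) (i j : ℕ) : Decidable (HAdj u φ i j) := by unfold HAdj; infer_instance

theorem HAdj.symm {u : ℕ} {φ : CNF} {i j : ℕ} (h : HAdj u φ i j) : HAdj u φ j i := by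
  unfold HAdj at h ⊢
  rw [hA_symm (Nat.mod_lt _ (by norm_num)) (Nat.mod_lt _ (by norm_num)), aA_symm]
  rcases h with h | h | h | h | h | h
  · exact Or.inr (Or.inl h)
  · exact Or.inl h
  · exact Or.inr (Or.inr (Or.inr (Or.inl ⟨h.2, h.1⟩)))
  · exact Or.inr (Or.inr (Or.inl ⟨h.2, h.1⟩))
  · exact Or.inr (Or.inr (Or.inr (Or.inr (Or.inl ⟨h.2.1, h.1, h.2.2.1.symm, h.2.2.2⟩))))
  · exact Or.inr (Or.inr (Or.inr (Or.inr (Or.inr ⟨h.2.1, h.1, h.2.2.1.symm, h.2.2.2⟩))))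

/-- The graph of a formula. -/
def gr (u : ℕ) (φ : CNF) (N : ℕ) : SimpleGraph (Fin N) where
  Adj i j := i.val ≠ j.val ∧ HAdj u φ i j
  symm := ⟨fun _ _ h => ⟨h.1.symm, h.2.symm⟩⟩
  loopless := ⟨fun _ h => h.1 rfl⟩

theorem lab_le (u : ℕ) (φ : CNF) (i : ℕ) : lab u φ i ≤ 3 := by
  unfold lab; split_ifs <;> omega

theorem sr_lt (u : ℕ) (φ : CNF) (i : ℕ) : sr u φ i < 7 := by
  unfold sr; split_ifs <;> omega

theorem not_adj_TT {u : ℕ} {φ : CNF} {i j : ℕ} (hi : lab u φ i = 1) (hj : lab u φ j = 1) :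
    ¬HAdj u φ i j := by
  have h1 : (i - u) % 10 < 3 ∧ sr u φ i ≤ 1 := by
    unfold lab at hi; unfold sr; split_ifs at hi ⊢ <;> omega
  have h2 : (j - u) % 10 < 3 ∧ sr u φ j ≤ 1 := by
    unfold lab at hj; unfold sr; split_ifs at hj ⊢ <;> omega
  unfold HAdj
  have e1 := hA_term ⟨_, h1.1⟩ ⟨_, h2.1⟩
  have e2 : aA (sr u φ i) (sr u φ j) = false := by
    unfold aA; simp only [decide_eq_false_iff_not]; omega
  simp only at e1
  rw [e1, e2, hi, hj]
  simp

/-- Clause side: adjacency of two vertices of kinds 0, 1. -/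
theorem adj_clause {u : ℕ} {φ : CNF} {i j : ℕ} (hi : lab u φ i ≤ 1) (hj : lab u φ j ≤ 1) :
    HAdj u φ i j ↔ (i - u) / 10 = (j - u) / 10 ∧ hA ((i - u) % 10) ((j - u) % 10) = true := by
  refine ⟨fun h => ?_, fun h => Or.inr (Or.inr (Or.inr (Or.inr (Or.inl ⟨hi, hj, h⟩))))⟩
  have h' := h
  rcases h with h | h | h | h | h | h
  · omega
  · omega
  · omega
  · omega
  · exact h.2.2
  · exact absurd h' (not_adj_TT (by omega) (by omega))

/-- Variable side: adjacency of two vertices of kinds 1, 2. -/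
theorem adj_var {u : ℕ} {φ : CNF} {i j : ℕ} (hi : 1 ≤ lab u φ i) (hi' : lab u φ i ≤ 2)
    (hj : 1 ≤ lab u φ j) (hj' : lab u φ j ≤ 2) :
    HAdj u φ i j ↔ vr u φ i = vr u φ j ∧ aA (sr u φ i) (sr u φ j) = true := by
  refine ⟨fun h => ?_, fun h => Or.inr (Or.inr (Or.inr (Or.inr (Or.inr ⟨hi, hj, h⟩))))⟩
  have h' := h
  rcases h with h | h | h | h | h | h
  · omega
  · omega
  · omega
  · omega
  · exact absurd h' (not_adj_TT (by omega) (by omega))
  · exact h.2.2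

/-- An induced path on five vertices, or a 5-hole, meets both inner kinds. -/
theorem five {u : ℕ} {φ : CNF} {a b c d e : ℕ}
    (ha : lab u φ a ≠ 3) (hb : lab u φ b ≠ 3) (hc : lab u φ c ≠ 3) (hd : lab u φ d ≠ 3)
    (he : lab u φ e ≠ 3)
    (ab : HAdj u φ a b) (bc : HAdj u φ b c) (cd : HAdj u φ c d) (de : HAdj u φ d e)
    (ac : ¬HAdj u φ a c) (ad : ¬HAdj u φ a d) (bd : ¬HAdj u φ b d) (be : ¬HAdj u φ b e)
    (ce : ¬HAdj u φ c e) :
    (lab u φ a = 0 ∨ lab u φ b = 0 ∨ lab u φ c = 0 ∨ lab u φ d = 0 ∨ lab u φ e = 0) ∧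
    (lab u φ a = 2 ∨ lab u φ b = 2 ∨ lab u φ c = 2 ∨ lab u φ d = 2 ∨ lab u φ e = 2) := by
  have k2 : ∀ x : ℕ, lab u φ x ≠ 3 → lab u φ x ≤ 2 := fun x hx =>
    Nat.le_of_lt_succ (lt_of_le_of_ne (lab_le u φ x) hx)
  have k1 : ∀ x : ℕ, lab u φ x ≠ 3 → lab u φ x ≠ 2 → lab u φ x ≤ 1 := fun x hx hx' =>
    Nat.le_of_lt_succ (lt_of_le_of_ne (k2 x hx) hx')
  constructor
  · by_contra h
    simp only [not_or] at h
    obtain ⟨a0, b0, c0, d0, e0⟩ := h
    have a1 := Nat.one_le_iff_ne_zero.2 a0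
    have b1 := Nat.one_le_iff_ne_zero.2 b0
    have c1 := Nat.one_le_iff_ne_zero.2 c0
    have d1 := Nat.one_le_iff_ne_zero.2 d0
    have e1 := Nat.one_le_iff_ne_zero.2 e0
    have a2 := k2 a ha
    have b2 := k2 b hb
    have c2 := k2 c hc
    have d2 := k2 d hd
    have e2 := k2 e he
    rw [adj_var a1 a2 b1 b2] at ab
    rw [adj_var b1 b2 c1 c2] at bc
    rw [adj_var c1 c2 d1 d2] at cd
    rw [adj_var d1 d2 e1 e2] at de
    rw [adj_var a1 a2 c1 c2] at ac
    rw [adj_var a1 a2 d1 d2] at ad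
    rw [adj_var b1 b2 d1 d2] at bd
    rw [adj_var b1 b2 e1 e2] at be
    rw [adj_var c1 c2 e1 e2] at ce
    refine aA_five ⟨_, sr_lt u φ a⟩ ⟨_, sr_lt u φ b⟩ ab.2 ⟨_, sr_lt u φ c⟩ bc.2 ?_
      ⟨_, sr_lt u φ d⟩ cd.2 ?_ ?_ ⟨_, sr_lt u φ e⟩ de.2 ?_ ?_
    · simpa [ab.1, bc.1] using ac
    · simpa [ab.1, bc.1, cd.1] using ad
    · simpa [bc.1, cd.1] using bd
    · simpa [bc.1, cd.1, de.1] using be
    · simpa [cd.1, de.1] using ce
  · by_contra h
    simp only [not_or] at h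
    obtain ⟨a0, b0, c0, d0, e0⟩ := h
    have a1 := k1 a ha a0
    have b1 := k1 b hb b0
    have c1 := k1 c hc c0
    have d1 := k1 d hd d0
    have e1 := k1 e he e0
    rw [adj_clause a1 b1] at ab
    rw [adj_clause b1 c1] at bc
    rw [adj_clause c1 d1] at cd
    rw [adj_clause d1 e1] at de
    rw [adj_clause a1 c1] at ac
    rw [adj_clause a1 d1] at ad
    rw [adj_clause b1 d1] at bd
    rw [adj_clause b1 e1] at be
    rw [adj_clause c1 e1] at ce
    have m : ∀ x : ℕ, x % 10 < 10 := fun x => Nat.mod_lt _ (by norm_num)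
    refine hA_five ⟨_, m (a - u)⟩ ⟨_, m (b - u)⟩ ab.2 ⟨_, m (c - u)⟩ bc.2 ?_
      ⟨_, m (d - u)⟩ cd.2 ?_ ?_ ⟨_, m (e - u)⟩ de.2 ?_ ?_
    · simpa [ab.1, bc.1] using ac
    · simpa [ab.1, bc.1, cd.1] using ad
    · simpa [bc.1, cd.1] using bd
    · simpa [bc.1, cd.1, de.1] using be
    · simpa [cd.1, de.1] using ce

/-- Kinds compatible with non-adjacency. -/
def nn (x y : ℕ) : Bool := decide (x ≠ 3 ∧ y ≠ 3 ∧ ¬(x = 0 ∧ y = 2) ∧ ¬(x = 2 ∧ y = 0))
/-- Kinds compatible with adjacency. -/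
def mm (x y : ℕ) : Bool := decide (¬(x = 1 ∧ y = 1))

theorem nadj_lab {u : ℕ} {φ : CNF} {i j : ℕ} (h : ¬HAdj u φ i j) :
    lab u φ i ≠ 3 ∧ lab u φ j ≠ 3 ∧ ¬(lab u φ i = 0 ∧ lab u φ j = 2) ∧
      ¬(lab u φ i = 2 ∧ lab u φ j = 0) := by
  unfold HAdj at h
  push Not at h
  exact ⟨h.1, h.2.1, fun h' => h.2.2.1 h'.1 h'.2, fun h' => h.2.2.2.1 h'.1 h'.2⟩

theorem nn_lab {u : ℕ} {φ : CNF} {i j : ℕ} (h : ¬HAdj u φ i j) :
    nn (lab u φ i) (lab u φ j) = true := decide_eq_true (nadj_lab h)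

theorem mm_lab {u : ℕ} {φ : CNF} {i j : ℕ} (h : HAdj u φ i j) :
    mm (lab u φ i) (lab u φ j) = true := decide_eq_true fun h' => not_adj_TT h'.1 h'.2 h

set_option synthInstance.maxSize 100000 in
theorem lab_C5 : ∀ a b c d e : Fin 4,
    nn a c = true → nn a d = true → nn b d = true → nn b e = true → nn c e = true →
    mm a b = true → mm b c = true → mm c d = true → mm d e = true → mm e a = true →
    (a.val = 0 ∨ b.val = 0 ∨ c.val = 0 ∨ d.val = 0 ∨ e.val = 0) ∧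
      (a.val = 2 ∨ b.val = 2 ∨ c.val = 2 ∨ d.val = 2 ∨ e.val = 2) →
    False := by
  decide +kernel

set_option synthInstance.maxSize 100000 in
theorem lab_six : ∀ a b c d e f : Fin 4,
    nn a c = true → nn a d = true → nn b d = true → nn b e = true → nn c e = true →
    nn a e = true → nn b f = true → nn c f = true → nn d f = true →
    mm a b = true → mm b c = true → mm c d = true → mm d e = true → mm e f = true →
    (a.val = 0 ∨ b.val = 0 ∨ c.val = 0 ∨ d.val = 0 ∨ e.val = 0) ∧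
      (a.val = 2 ∨ b.val = 2 ∨ c.val = 2 ∨ d.val = 2 ∨ e.val = 2) →
    False := by
  decide +kernel

/-- The kind as an element of `Fin 4`. -/
abbrev labF (u : ℕ) (φ : CNF) (i : ℕ) : Fin 4 := ⟨lab u φ i, Nat.lt_succ_of_le (lab_le u φ i)⟩

theorem no_C5 {u : ℕ} {φ : CNF} {a b c d e : ℕ}
    (ab : HAdj u φ a b) (bc : HAdj u φ b c) (cd : HAdj u φ c d) (de : HAdj u φ d e)
    (ea : HAdj u φ e a)
    (ac : ¬HAdj u φ a c) (ad : ¬HAdj u φ a d) (bd : ¬HAdj u φ b d) (be : ¬HAdj u φ b e)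
    (ce : ¬HAdj u φ c e) : False :=
  lab_C5 (labF u φ a) (labF u φ b) (labF u φ c) (labF u φ d) (labF u φ e)
    (nn_lab ac) (nn_lab ad) (nn_lab bd) (nn_lab be) (nn_lab ce)
    (mm_lab ab) (mm_lab bc) (mm_lab cd) (mm_lab de) (mm_lab ea)
    (five (nadj_lab ac).1 (nadj_lab bd).1 (nadj_lab ac).2.1 (nadj_lab ad).2.1 (nadj_lab be).2.1
      ab bc cd de ac ad bd be ce)

theorem no_six {u : ℕ} {φ : CNF} {a b c d e f : ℕ}
    (ab : HAdj u φ a b) (bc : HAdj u φ b c) (cd : HAdj u φ c d) (de : HAdj u φ d e)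
    (ef : HAdj u φ e f)
    (ac : ¬HAdj u φ a c) (ad : ¬HAdj u φ a d) (ae : ¬HAdj u φ a e) (bd : ¬HAdj u φ b d)
    (be : ¬HAdj u φ b e) (bf : ¬HAdj u φ b f) (ce : ¬HAdj u φ c e) (cf : ¬HAdj u φ c f)
    (df : ¬HAdj u φ d f) : False :=
  lab_six (labF u φ a) (labF u φ b) (labF u φ c) (labF u φ d) (labF u φ e) (labF u φ f)
    (nn_lab ac) (nn_lab ad) (nn_lab bd) (nn_lab be) (nn_lab ce)
    (nn_lab ae) (nn_lab bf) (nn_lab cf) (nn_lab df)
    (mm_lab ab) (mm_lab bc) (mm_lab cd) (mm_lab de) (mm_lab ef)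
    (five (nadj_lab ac).1 (nadj_lab bd).1 (nadj_lab ac).2.1 (nadj_lab ad).2.1 (nadj_lab be).2.1
      ab bc cd de ac ad bd be ce)

theorem emb_adj {u N : ℕ} {φ : CNF} {V : Type} {F : SimpleGraph V} (e : F ↪g gr u φ N)
    {x y : V} (h : x ≠ y) : HAdj u φ (e x) (e y) ↔ F.Adj x y := by
  have h1 := e.map_rel_iff (a := x) (b := y)
  have h2 : (e x).val ≠ (e y).val := fun h' => h (e.injective (Fin.ext h'))
  exact ⟨fun h' => h1.1 ⟨h2, h'⟩, fun h' => (h1.2 h').2⟩

theorem gr_P6 (u : ℕ) (φ : CNF) (N : ℕ) : P6Free (gr u φ N) := by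
  refine ⟨fun e => ?_⟩
  have key : ∀ x y : Fin 6, x ≠ y → (HAdj u φ (e x) (e y) ↔ x.val + 1 = y.val ∨ y.val + 1 = x.val) :=
    fun x y h => by rw [emb_adj e h, SimpleGraph.pathGraph_adj]
  refine no_six (u := u) (φ := φ) (a := e 0) (b := e 1) (c := e 2) (d := e 3) (e := e 4) (f := e 5)
    ?_ ?_ ?_ ?_ ?_ ?_ ?_ ?_ ?_ ?_ ?_ ?_ ?_ ?_ <;> rw [key _ _ (by decide)] <;> decide

theorem gr_hole (u : ℕ) (φ : CNF) (N : ℕ) : LongHoleFree (gr u φ N) := by
  intro m hm
  refine ⟨fun e => ?_⟩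
  obtain ⟨k, rfl⟩ : ∃ k, m = k + 5 := ⟨m - 5, by omega⟩
  have key : ∀ x y : Fin (k + 5), x.val < y.val →
      (HAdj u φ (e x) (e y) ↔ x.val + 1 = y.val ∨ (x.val = 0 ∧ y.val = k + 4)) := fun x y h => by
    rw [emb_adj e (fun h' => by rw [h'] at h; exact lt_irrefl _ h),
      SimpleGraph.cycleGraph_adj', Fin.sub_def, Fin.sub_def]
    have hx := x.2
    have hy := y.2
    simp only
    rw [show k + 5 - x.val + y.val = (y.val - x.val) + (k + 5) by omega, Nat.add_mod_right,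
      Nat.mod_eq_of_lt (show k + 5 - y.val + x.val < k + 5 by omega),
      Nat.mod_eq_of_lt (show y.val - x.val < k + 5 by omega)]
    omega
  rcases k with _ | k
  · refine no_C5 (u := u) (φ := φ) (a := e 0) (b := e 1) (c := e 2) (d := e 3) (e := e 4)
      ?_ ?_ ?_ ?_ (HAdj.symm ?_) ?_ ?_ ?_ ?_ ?_ <;> rw [key _ _ (by decide)] <;> decide
  · refine no_six (u := u) (φ := φ) (a := e ⟨0, by omega⟩) (b := e ⟨1, by omega⟩)
      (c := e ⟨2, by omega⟩) (d := e ⟨3, by omega⟩) (e := e ⟨4, by omega⟩) (f := e ⟨5, by omega⟩)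
      ?_ ?_ ?_ ?_ ?_ ?_ ?_ ?_ ?_ ?_ ?_ ?_ ?_ ?_ <;> rw [key _ _ (by simp)] <;> simp

end Pool.Agent.Work.MP_27b024_lc
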